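import Pool.Agent.H638.IB.Final

/-!
# Iterated intersection bodies converge to the Euclidean ball

For `n ≥ 3` and every origin-symmetric convex body `K` of `ℝⁿ` the Banach-Mazur distances of the
iterated intersection bodies `I^m K` to the Euclidean ball tend to `1`, uniformly in `K`.
-/

set_option autoImplicit false

open MeasureTheory Set Filter Topology Metric
open scoped Pointwise RealInnerProductSpace ENNReal

namespace Pool.Agent.Results.MP_5ac201_gt.IteratesConverge

section Defs

variable {E : Type} [NormedAddCommGroup E] [InnerProductSpace ℝ E]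

/-- Origin-symmetric convex bodies: compact, convex, with nonempty interior, `K = -K`. -/
structure IsSymConvexBody (K : Set E) : Prop where
  isCompact : IsCompact K
  convex : Convex ℝ K
  interior_nonempty : (interior K).Nonempty
  neg_mem : ∀ x ∈ K, -x ∈ K

/-- The Banach-Mazur distance of `A` to the Euclidean unit ball `B`:
`d(A, B) = inf {c ≥ 1 : B ⊆ T A ⊆ c B for some invertible linear map T}`. -/
noncomputable def distToBall (A : Set E) : ℝ :=
  sInf {c : ℝ | 1 ≤ c ∧ ∃ T : E ≃ₗ[ℝ] E, closedBall 0 1 ⊆ T '' A ∧ T '' A ⊆ c • closedBall 0 1}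

variable [FiniteDimensional ℝ E] [MeasurableSpace E] [BorelSpace E]

/-- `vol_{n-1}(K ∩ u^⊥)`: the Lebesgue measure of the central section of `K` in the Euclidean space
`u^⊥`. -/
noncomputable def sectionVol (K : Set E) (u : E) : ℝ :=
  ((volume : Measure (ℝ ∙ u)ᗮ) {y | (y : E) ∈ K}).toReal

/-- The intersection body `IK`: the set of all `r u` with `u` a unit vector and
`0 ≤ r ≤ vol_{n-1}(K ∩ u^⊥)`. -/
noncomputable def intersectionBody (K : Set E) : Set E :=
  {x | ∃ u : E, ‖u‖ = 1 ∧ ∃ r : ℝ, 0 ≤ r ∧ r ≤ sectionVol K u ∧ x = r • u}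

/-- The iterated intersection body `I^m K`. -/
noncomputable def iteratedBody (m : ℕ) (K : Set E) : Set E := intersectionBody^[m] K

variable (E)

/-- For every origin-symmetric convex body `K` all `I^m K` are origin-symmetric convex bodies, and
their Banach-Mazur distances to the ball tend to `1`. -/
def IteratesConverge : Prop := ∀ K : Set E, IsSymConvexBody K →
  (∀ m : ℕ, IsSymConvexBody (iteratedBody m K)) ∧
    Tendsto (fun m : ℕ => distToBall (iteratedBody m K)) atTop (𝓝 1)

/-- The convergence is uniform in `K`. -/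
def ConvergeUniformly : Prop := ∀ ε : ℝ, 0 < ε → ∃ M : ℕ, ∀ m, M ≤ m → ∀ K : Set E,
  IsSymConvexBody K → 1 ≤ distToBall (iteratedBody m K) ∧ distToBall (iteratedBody m K) ≤ 1 + ε

end Defs

open Pool.Agent.H638.IB

lemma body_iff {n : ℕ} (K : Set (EuclideanSpace ℝ (Fin n))) : IsSymConvexBody K ↔ Body K :=
  ⟨fun h => ⟨h.1, h.2, h.3, h.4⟩, fun h => ⟨h.1, h.2, h.3, h.4⟩⟩

lemma ib_eq {n : ℕ} : (intersectionBody : Set (EuclideanSpace ℝ (Fin n)) → _) = IB := rfl

/-- **Iterated intersection bodies converge to the ball.** Let `n ≥ 3`. For every origin-symmetric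
convex body `K` of `ℝⁿ` all iterated intersection bodies `I^m K` are origin-symmetric convex bodies
and `d(I^m K, B) → 1`; the convergence is uniform in `K`. -/
theorem result (n : ℕ) (hn : 3 ≤ n) :
    IteratesConverge (EuclideanSpace ℝ (Fin n)) ∧ ConvergeUniformly (EuclideanSpace ℝ (Fin n)) := by
  refine ⟨fun K hK => ⟨fun m => ?_, ?_⟩, fun ε hε => ?_⟩
  · unfold iteratedBody
    rw [body_iff, ib_eq]
    exact iter_body IBB_final hn K ((body_iff K).1 hK) m
  · exact main_tendsto UNI_final hn K ((body_iff K).1 hK)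
  · obtain ⟨M, hM⟩ := main_uniform UNI_final hn ε hε
    exact ⟨M, fun m hm K hK => hM m hm K ((body_iff K).1 hK)⟩

end Pool.Agent.Results.MP_5ac201_gt.IteratesConverge
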